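import Pool.Agent.T9h3.LN.Spec2

/-!
# The two halves of the piece `S_Base`
-/

set_option autoImplicit false

namespace Pool.Agent.T9h49.LN

/-- (C2b) The invariants, for any extension `K'` with the properties of `S_Base`. (`K'` is the span
of `M' * i(K)`, as the adjunction of `M'` to `i(K)` is a field which contains `M'` and the `i (χ x)`.
Let `m` be an element of `M'` with trace `1` in `M`; then `y' = ∑ ρ' g (m y')`, the sum over the
`g` which are trivial on `M`, is in `i(K)`; the rest is the hypothesis on `F`, as the restriction is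
onto.) -/
def S_Inv : Prop :=
  ∀ (E M M' F K K' L : Type) [Field E] [Field M] [Field M'] [Field F] [Field K] [Field K']
    [Algebra E M] [FiniteDimensional E M] [IsGalois E M] [Algebra E M'] [FiniteDimensional E M']
    [IsGalois E M'] [Algebra M M'] [IsScalarTower E M M'] [Algebra M K] [Algebra E K]
    [IsScalarTower E M K] [Algebra F K] [Algebra M' K']
    (ρ : (M ≃ₐ[E] M) →* (K ≃ₐ[E] K)) (χ : L → K) (i : K →+* K')
    (ρ' : (M' ≃ₐ[E] M') →* (K' ≃+* K')),
    (∀ y, (∀ g, ρ g y = y) → ∃ z : F, algebraMap F K z = y) →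
    (∀ x : M, i (algebraMap M K x) = algebraMap M' K' (algebraMap M M' x)) →
    (∀ g x, ρ' g (algebraMap M' K' x) = algebraMap M' K' (g x)) →
    (∀ g y, ρ' g (i y) = i (ρ (AlgEquiv.restrictNormalHom M g) y)) →
    IntermediateField.adjoin M' (Set.range fun x => i (χ x)) = ⊤ →
    ∀ y', (∀ g, ρ' g y' = y') → ∃ z : F, i (algebraMap F K z) = y'

/-- (C2a) The construction. -/
def S_Con : Prop :=
  ∀ (E M M' K L : Type) [Field E] [Field M] [Field M'] [Field K] [Algebra E M]
    [FiniteDimensional E M] [IsGalois E M] [Algebra E M'] [FiniteDimensional E M']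
    [IsGalois E M'] [Algebra M M'] [IsScalarTower E M M'] [Algebra M K] [Algebra E K]
    [IsScalarTower E M K] [AddCommGroup L]
    [Module.Free ℤ L] [Module.Finite ℤ L] [DistribMulAction (M ≃ₐ[E] M) L]
    (ρ : (M ≃ₐ[E] M) →* (K ≃ₐ[E] K)) (χ : L → K),
    (∀ g x, ρ g (algebraMap M K x) = algebraMap M K (g x)) →
    χ 0 = 1 → (∀ x y, χ (x + y) = χ x * χ y) → LinearIndependent M χ →
    IntermediateField.adjoin M (Set.range χ) = ⊤ →
    (∀ g x, ∃ c : M, ρ g (χ x) = algebraMap M K c * χ (g • x)) →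
    ∃ (K' : Type) (_ : Field K') (_ : Algebra M' K') (i : K →+* K')
      (ρ' : (M' ≃ₐ[E] M') →* (K' ≃+* K')),
      (∀ x : M, i (algebraMap M K x) = algebraMap M' K' (algebraMap M M' x)) ∧
      (∀ g x, ρ' g (algebraMap M' K' x) = algebraMap M' K' (g x)) ∧
      (∀ g y, ρ' g (i y) = i (ρ (AlgEquiv.restrictNormalHom M g) y)) ∧
      LinearIndependent M' (fun x => i (χ x)) ∧
      IntermediateField.adjoin M' (Set.range fun x => i (χ x)) = ⊤

theorem base_of (h1 : S_Con) (h2 : S_Inv) : Pool.Agent.T9h3.LN.S_Base := by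
  intro E M M' F K L _ _ _ _ _ _ _ _ _ _ _ _ _ _ _ _ _ _ _ _ _ _ _ ρ χ hρ hF h0 ha hli had hc
  obtain ⟨K', _, _, i, ρ', c1, c2, c3, c5, c6⟩ := h1 E M M' K L ρ χ hρ h0 ha hli had hc
  exact ⟨K', _, _, i, ρ', c1, c2, c3,
    h2 E M M' F K K' L ρ χ i ρ' (fun y hy => (hF y).1 hy) c1 c2 c3 c6, c5, c6⟩

end Pool.Agent.T9h49.LN
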